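import Pool.Agent.Work.MP_db9399_lc.Interface
import Pool.Agent.Work.MP_db9399_bg_helper85.EMBB

/-!
# MP_db9399, THEOREM LC: block EMBB (helper85): embedding into a near-regular graph
(copy of the block EMBB of THEOREM BIG with the threshold `1 + g`)
-/

set_option autoImplicit false

namespace Pool.Agent.Work.MP_db9399_lc.helper85

open Finset Classical
open Pool.Agent.Work.MP_db9399_all (nb)
open Pool.Agent.Work.MP_db9399_mad (EG)
open Pool.Agent.Work.MP_db9399_bg.helper85 (pv card_inl card_inr inter_le heavyW light out_ge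
  out_light_heavy bip_EG card_nb ie_eq stmt_EXPANDER)

universe u v

section nsc
variable {V : Type u} {W : Type v} [Fintype V] [Fintype W]

theorem nsc_EG1 (G : SimpleGraph V) (K : SimpleGraph W) (R : V → W → Prop) {g g0 g' : ℝ} {d : ℕ}
    (hg : 0 < g) (hg1 : g ≤ 1 / 10) (_hg0 : 0 < g0) (hg'g : g' ≤ g ^ 2 / 2)
    (hg'g0 : g' * d ≤ g0 * d - 11)
    (hR : ∀ w a b, R a w → R b w → a = b) (hG : ∀ v, (nb G v).card ≤ d)
    (hp : ∀ v, (pv R v).card + (nb G v).card = d) (hK : ∀ w, d ≤ (nb K w).card + 10)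
    (hKE : ∀ A B : Finset W, 100 * A.card ≤ 51 * Fintype.card W →
      100 * B.card ≤ 51 * Fintype.card W →
      ∑ w ∈ A, ((nb K w ∩ B).card : ℝ) ≤ (1 - g0) * d * (((A.card : ℝ) + B.card) / 2))
    (hN : 5 * d ≤ Fintype.card W)
    (hnsc : ∀ C : Finset V, (∀ v ∈ C, (1 - g) * d ≤ ((nb G v).card : ℝ)) →
        (C.card : ℝ) ≤ (1 + g) * d → g * d * C.card ≤ ∑ v ∈ C, ((nb G v \ C).card : ℝ))
    (C : Finset (V ⊕ W)) (hC : (C.card : ℝ) ≤ (1 + g') * d) :
    g' * d * C.card ≤ ∑ t ∈ C, ((nb (EG G K R) t \ C).card : ℝ) := by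
  have hd0 : (0 : ℝ) ≤ d := Nat.cast_nonneg _
  have hcard : (C.toLeft.card : ℝ) + C.toRight.card = C.card := by
    exact_mod_cast Finset.card_toLeft_add_card_toRight (u := C)
  set A := C.toLeft with hA
  set B := C.toRight with hB
  set Al := A.filter (fun v => ¬ (1 - g) * d ≤ ((nb G v).card : ℝ)) with hAl
  set Ah := A.filter (fun v => (1 - g) * d ≤ ((nb G v).card : ℝ)) with hAh
  have hAc : (Ah.card : ℝ) + Al.card = A.card := by
    exact_mod_cast Finset.card_filter_add_card_filter_not (s := A)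
      (fun v => (1 - g) * d ≤ ((nb G v).card : ℝ))
  have hg'2 : g' ≤ g := hg'g.trans (by nlinarith)
  have hA0 : (0 : ℝ) ≤ Ah.card := Nat.cast_nonneg _
  have hA1 : (0 : ℝ) ≤ Al.card := Nat.cast_nonneg _
  have hB0 : (0 : ℝ) ≤ B.card := Nat.cast_nonneg _
  have hCd : (1 + g') * (d : ℝ) ≤ (1 + g) * d := mul_le_mul_of_nonneg_right (by linarith) hd0
  -- (i)
  have h1 := out_light_heavy G R hR (g := g) hp A B
  rw [← hAl] at h1
  -- (ii)
  have hBW : 100 * B.card ≤ 51 * Fintype.card W := by
    have h3 : (B.card : ℝ) ≤ (1 + g) * d := by linarith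
    have h4 : (B.card : ℝ) ≤ 21 / 10 * d := h3.trans (mul_le_mul_of_nonneg_right (by linarith) hd0)
    have h5 : (5 : ℝ) * d ≤ Fintype.card W := by exact_mod_cast hN
    have h6 : (100 : ℝ) * B.card ≤ 51 * Fintype.card W := by linarith
    exact_mod_cast h6
  have h2 := heavyW K hK B B
  have h3 := hKE B B hBW hBW
  -- (iii)
  have h4 : g * d * Ah.card - d * Al.card ≤ ∑ v ∈ A, ((nb G v \ A).card : ℝ) := by
    have h5 := hnsc Ah (fun v hv => (mem_filter.mp hv).2) (by linarith)
    have h6 := inter_le G hG Ah Al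
    calc g * d * Ah.card - d * Al.card
        ≤ ∑ v ∈ Ah, ((nb G v \ Ah).card : ℝ) - ∑ v ∈ Ah, ((nb G v ∩ Al).card : ℝ) := by linarith
      _ = ∑ v ∈ Ah, (((nb G v \ Ah).card : ℝ) - ((nb G v ∩ Al).card : ℝ)) := by
          rw [Finset.sum_sub_distrib]
      _ ≤ ∑ v ∈ Ah, ((nb G v \ A).card : ℝ) := by
          apply Finset.sum_le_sum
          intro v _
          have h7 : nb G v \ Ah ⊆ (nb G v \ A) ∪ (nb G v ∩ Al) := by
            intro x hx
            rw [mem_sdiff] at hx
            rw [mem_union, mem_sdiff, mem_inter]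
            by_cases hxA : x ∈ A
            · right
              refine ⟨hx.1, ?_⟩
              rw [hAl, mem_filter]
              refine ⟨hxA, fun hcon => hx.2 ?_⟩
              rw [hAh, mem_filter]
              exact ⟨hxA, hcon⟩
            · exact Or.inl ⟨hx.1, hxA⟩
          have h8 : (nb G v \ Ah).card ≤ (nb G v \ A).card + (nb G v ∩ Al).card :=
            (Finset.card_le_card h7).trans (Finset.card_union_le _ _)
          have h9 : ((nb G v \ Ah).card : ℝ) ≤ (nb G v \ A).card + (nb G v ∩ Al).card := by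
            exact_mod_cast h8
          linarith
      _ ≤ _ := Finset.sum_le_sum_of_subset_of_nonneg (Finset.filter_subset _ _)
            fun _ _ _ => Nat.cast_nonneg _
  have h5 : 0 ≤ ∑ v ∈ A, ((nb G v \ A).card : ℝ) :=
    Finset.sum_nonneg fun _ _ => Nat.cast_nonneg _
  have h6 : g / 2 * (g * d * Ah.card - d * Al.card) ≤ ∑ v ∈ A, ((nb G v \ A).card : ℝ) := by
    have h7 := mul_le_mul_of_nonneg_left h4 (by positivity : 0 ≤ g / 2)
    have h8 : g / 2 * ∑ v ∈ A, ((nb G v \ A).card : ℝ) ≤ 1 * ∑ v ∈ A, ((nb G v \ A).card : ℝ) :=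
      mul_le_mul_of_nonneg_right (by linarith) h5
    linarith
  refine le_trans ?_ (out_ge G K R C C)
  rw [← hA, ← hB]
  have h10 : g' * d * C.card = g' * (d * Ah.card) + g' * (d * Al.card) + g' * d * B.card := by
    rw [← hcard, ← hAc]; ring
  have h11 : g' * (d * Ah.card) ≤ g ^ 2 / 2 * (d * Ah.card) :=
    mul_le_mul_of_nonneg_right hg'g (by positivity)
  have h12 : g' * (d * Al.card) ≤ g / 2 * (d * Al.card) :=
    mul_le_mul_of_nonneg_right (hg'g.trans (by nlinarith)) (by positivity)
  have h13 : g' * d * B.card ≤ (g0 * d - 11) * B.card := mul_le_mul_of_nonneg_right hg'g0 hB0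
  rw [h10]
  linarith only [h1, h2, h3, h6, h11, h12, h13]

end nsc

/-- block **EMBB** -/
theorem stmt_EMBB : Stmt_EMBB.{u} := by
  intro g hg hg1
  obtain ⟨g0', hg0', hX⟩ := stmt_EXPANDER
  set g0 := min g0' 1 with hg0d
  have hg0 : 0 < g0 := lt_min hg0' one_pos
  have hg01 : g0 ≤ 1 := min_le_right _ _
  have hg0le : g0 ≤ g0' := min_le_left _ _
  set γ := min g (g0 / 2) with hγd
  have hγ0 : 0 < γ := lt_min hg (by positivity)
  have hγg : γ ≤ g := min_le_left _ _
  have hγg0 : γ ≤ g0 / 2 := min_le_right _ _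
  refine ⟨γ * g / 20, by positivity, by nlinarith, ?_⟩
  intro ε hε
  refine ⟨⌈10 / ε⌉₊ + ⌈40 / (g * γ)⌉₊ + 1000, ?_⟩
  intro V _ G d hd hVd hG hbip hnsc
  have hdR : (0 : ℝ) ≤ d := Nat.cast_nonneg d
  have hd1 : 10 / ε ≤ (d : ℝ) := (Nat.le_ceil _).trans (by exact_mod_cast (by omega))
  have hd2 : 40 / (g * γ) ≤ (d : ℝ) := (Nat.le_ceil _).trans (by exact_mod_cast (by omega))
  have hd3 : 10 ≤ ε * d := by
    rw [div_le_iff₀ hε] at hd1; linarith
  have hd4 : 40 ≤ g * γ * d := by
    rw [div_le_iff₀ (by positivity)] at hd2; linarith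
  have hd5 : 1000 ≤ d := by omega
  have hd6 : g * γ * d ≤ g0 / 20 * d := by
    apply mul_le_mul_of_nonneg_right _ hdR
    nlinarith
  obtain ⟨W, _, K, hN, hK⟩ := hX d (1000 * Fintype.card V + Fintype.card V * d + 5 * d + 1)
    (by omega)
  obtain ⟨hK1, hK2⟩ := hK
  have hT : Fintype.card (Σ v : V, Fin (d - (nb G v).card)) ≤ Fintype.card W := by
    rw [Fintype.card_sigma]
    have h1 : ∑ v : V, Fintype.card (Fin (d - (nb G v).card)) ≤ ∑ v : V, d := by
      apply Finset.sum_le_sum
      intro v _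
      simp
    rw [Finset.sum_const, Finset.card_univ, smul_eq_mul] at h1
    have h2 : 0 ≤ 1000 * Fintype.card V := Nat.zero_le _
    omega
  obtain ⟨ι⟩ := Function.Embedding.nonempty_of_card_le hT
  have hR : ∀ w a b, (∃ i, ι ⟨a, i⟩ = w) → (∃ i, ι ⟨b, i⟩ = w) → a = b := by
    rintro w a b ⟨i, hi⟩ ⟨j, hj⟩
    have := ι.injective (hi.trans hj.symm)
    exact congrArg Sigma.fst this
  set R : V → W → Prop := fun v w => ∃ i, ι ⟨v, i⟩ = w with hRdef
  have hN1 : 5 * d ≤ Fintype.card W := by
    have : 0 ≤ Fintype.card V * d := Nat.zero_le _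
    omega
  have hN2 : 1000 * Fintype.card V ≤ Fintype.card W := by
    have : 0 ≤ Fintype.card V * d := Nat.zero_le _
    omega
  have hpv : ∀ v, (pv R v).card = d - (nb G v).card := by
    intro v
    have h1 : pv R v = (univ : Finset (Fin (d - (nb G v).card))).image (fun i => ι ⟨v, i⟩) := by
      ext w; simp [pv, hRdef]
    rw [h1, Finset.card_image_of_injective]
    · simp
    · intro i j hij
      have := ι.injective hij
      simpa using this
  have hp : ∀ v, (pv R v).card + (nb G v).card = d := by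
    intro v
    have h1 := hpv v
    have h2 := hG v
    omega
  have hKd : ∀ w, (nb K w).card + 1 ≤ d ∧ d ≤ (nb K w).card + 10 := by
    intro w
    rw [card_nb]
    exact hK1 w
  have hKE : ∀ A B : Finset W, 100 * A.card ≤ 51 * Fintype.card W →
      100 * B.card ≤ 51 * Fintype.card W →
      ∑ w ∈ A, ((nb K w ∩ B).card : ℝ) ≤ (1 - g0) * d * (((A.card : ℝ) + B.card) / 2) := by
    intro A B h1 h2
    have h3 := hK2 A B h1 h2
    rw [ie_eq] at h3
    refine h3.trans ?_
    apply mul_le_mul_of_nonneg_right _ (by positivity)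
    exact mul_le_mul_of_nonneg_right (by linarith) hdR
  have hw1 : ∀ w, (univ.filter (fun v => R v w)).card ≤ 1 := by
    intro w
    rw [Finset.card_le_one]
    intro a ha b hb
    rw [Finset.mem_filter] at ha hb
    exact hR w a b ha.2 hb.2
  have hel : (∅ : Finset (V ⊕ W)).toLeft = ∅ := by ext; simp
  have her : (∅ : Finset (V ⊕ W)).toRight = ∅ := by ext; simp
  have hdl : ∀ v, (nb (EG G K R) (Sum.inl v)).card = (nb G v).card + (pv R v).card := by
    intro v
    have := card_inl G K R v ∅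
    rw [hel, her] at this
    simpa using this
  have hdr : ∀ w, (nb (EG G K R) (Sum.inr w)).card =
      (univ.filter (fun v => R v w)).card + (nb K w).card := by
    intro w
    have := card_inr G K R w ∅
    rw [hel, her] at this
    simp only [Finset.sdiff_empty] at this
    refine this.trans ?_
    congr
  refine ⟨W, inferInstance, K, R, hR, ?_, ?_, ?_, ?_, ?_⟩
  · rintro (v | w)
    · rw [hdl]; have := hp v; omega
    · rw [hdr]; have := hw1 w; have := hKd w; omega
  · rintro (v | w)
    · rw [hdl]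
      have h1 : (nb G v).card + (pv R v).card = d := by have := hp v; omega
      rw [h1]
      nlinarith
    · rw [hdr]
      have h3 : (d : ℝ) ≤ (nb K w).card + 10 := by exact_mod_cast (hKd w).2
      push_cast
      have h4 : (0:ℝ) ≤ ((univ.filter (fun v => R v w)).card : ℝ) := Nat.cast_nonneg _
      nlinarith
  · intro S T hST hc
    have := bip_EG G K R hg hg1 hg0 hg01 hγ0 hγg hγg0 rfl (by linarith) (by linarith) hd5 hR hp
      (fun w => (hKd w).2) (fun w => by have := (hKd w).1; omega) hKE hN2 hbip S T hST hc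
    refine this.trans (le_of_eq (Finset.sum_congr rfl fun t _ => ?_))
    congr
    exact Subsingleton.elim _ _
  · intro C hC
    have h1 : γ * g / 20 * d ≤ g0 / 2 * d := by
      apply mul_le_mul_of_nonneg_right _ hdR
      nlinarith
    have := nsc_EG1 G K R hg hg1 hg0 (g' := γ * g / 20) (by nlinarith) (by linarith) hR hG hp
      (fun w => (hKd w).2) hKE hN1 hnsc C hC
    refine this.trans (le_of_eq (Finset.sum_congr rfl fun t _ => ?_))
    congr
    exact Subsingleton.elim _ _

  · rw [Fintype.card_sum]; omega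

end Pool.Agent.Work.MP_db9399_lc.helper85
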