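import Pool.Agent.Work.MP_db9399_lc.Interface
import Pool.Agent.Work.MP_db9399_bg_helper27.DEEPF

/-! MP_db9399, THEOREM LC, block GROW: two sets in which `z` is deep have a large intersection
(a modification of helper27's file `MP_db9399_bg_helper27.GROW`). -/

set_option autoImplicit false

namespace Pool.Agent.Work.MP_db9399_lc.helper85

namespace GROW

open Finset Classical
open Pool.Agent.Work.MP_db9399_all (nb)
open Pool.Agent.Work.MP_db9399_px (LWalk hit ee)
open Pool.Agent.Work.MP_db9399_bg (den cl LabP Good PN IsPat en enP Sep Near REnv r0 Deep Spr Ok)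
open Pool.Agent.Work.MP_db9399_bg.helper27 (markov_ee ee_le_mul')
open Pool.Agent.Work.MP_db9399_lc

universe u

theorem mem_nb' {V : Type u} [Fintype V] {G : SimpleGraph V} {v w : V} :
    w ∈ nb G v ↔ G.Adj v w := by
  unfold nb; simp

/-- the growing sets -/
noncomputable def AA {V : Type u} [Fintype V] (G : SimpleGraph V) (Z : ℕ → Finset V) (z : V)
    (r : ℕ) : ℕ → Finset V
  | 0 => nb G z ∩ Z (r - 1)
  | j + 1 => AA G Z z r j ∪ univ.filter (fun w => w ∈ Z (r - (j + 2)) ∧
      ∃ v ∈ AA G Z z r j, G.Adj v w)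

theorem stmt_GROW : Stmt_GROW.{u} := by
  intro g hg hg1 V _ G d N Vg C C' z hN hBG hlow hD hD'
  obtain ⟨Y, hY1, hY2, hY3, hY4⟩ := hD
  obtain ⟨Y', hY1', hY2', hY3', hY4'⟩ := hD'
  have hN' : (0 : ℝ) < N := by exact_mod_cast hN
  rcases Nat.eq_zero_or_pos d with hd0 | hd
  · subst hd0
    simp only [Nat.cast_zero, mul_zero]
    positivity
  have hd' : (0 : ℝ) < d := by exact_mod_cast hd
  set Z : ℕ → Finset V := fun j => Y j ∩ Y' j with hZ
  have hZs : ∀ j, Z (j + 1) ⊆ Z j := fun j => inter_subset_inter (hY1 j) (hY1' j)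
  have hZanti : Antitone Z := antitone_nat_of_succ_le hZs
  have hnotZ : ∀ j < r0 g, ∀ v ∈ Z (j + 1), ((nb G v \ Z j).card : ℝ) ≤ 2 * (g / 100) * d := by
    intro j hj v hv
    have hv' := mem_inter.1 hv
    have h1 := hY3 j hj v hv'.1
    have h2 := hY3' j hj v hv'.2
    have h3 : nb G v \ Z j ⊆ (nb G v \ Y j) ∪ (nb G v \ Y' j) := by
      intro w hw
      rw [mem_sdiff] at hw
      by_cases hwY : w ∈ Y j
      · refine mem_union_right _ (mem_sdiff.2 ⟨hw.1, fun h => hw.2 (mem_inter.2 ⟨hwY, h⟩)⟩)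
      · exact mem_union_left _ (mem_sdiff.2 ⟨hw.1, hwY⟩)
    have h4 : ((nb G v \ Z j).card : ℝ) ≤ (nb G v \ Y j).card + (nb G v \ Y' j).card := by
      exact_mod_cast (card_le_card h3).trans (card_union_le _ _)
    linarith
  have hr0 : 3 ≤ r0 g := by unfold r0; omega
  have hr0g : 10 / g ≤ ((r0 g - 3 : ℕ) : ℝ) := by
    unfold r0
    simp only [Nat.add_sub_cancel]
    exact Nat.le_ceil _
  set A := AA G Z z (r0 g) with hA
  have hA0 : A 0 = nb G z ∩ Z (r0 g - 1) := by rw [hA]; unfold AA; rfl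
  have hAs : ∀ j, A (j + 1) = A j ∪ univ.filter (fun w => w ∈ Z (r0 g - (j + 2)) ∧
      ∃ v ∈ A j, G.Adj v w) := by
    intro j
    rw [hA]
    conv_lhs => unfold AA
  have hAZ : ∀ j, A j ⊆ Z (r0 g - (j + 1)) := by
    intro j
    induction j with
    | zero => rw [hA0]; exact inter_subset_right
    | succ j ih =>
      rw [hAs j]
      refine union_subset (ih.trans (hZanti (by omega))) ?_
      intro w hw
      exact (mem_filter.1 hw).2.1
  have hcard0 : (1 - 3 * (g / 100)) * d ≤ ((A 0).card : ℝ) := by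
    have h1 := hBG.low z
    have h2 := hnotZ (r0 g - 1) (by omega) z (by
      rw [show r0 g - 1 + 1 = r0 g by omega]
      exact mem_inter.2 ⟨hY4, hY4'⟩)
    have h3 : (nb G z \ Z (r0 g - 1)).card + (nb G z ∩ Z (r0 g - 1)).card = (nb G z).card :=
      card_sdiff_add_card_inter _ _
    have h4 : ((nb G z \ Z (r0 g - 1)).card : ℝ) + (nb G z ∩ Z (r0 g - 1)).card =
        (nb G z).card := by exact_mod_cast h3
    rw [hA0]
    linarith
  -- growth
  have hgrow : ∀ j, j + 2 ≤ r0 g → ((A j).card : ℝ) ≤ (1 + g) * d →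
      (1 + g / 2) * (A j).card ≤ ((A (j + 1)).card : ℝ) := by
    intro j hj hsmall
    have h1 := hBG.nsc (A j) hsmall
    have h2 : ∀ v ∈ A j, ((nb G v \ A j).card : ℝ) ≤
        ((nb G v ∩ (A (j + 1) \ A j)).card : ℝ) + 2 * (g / 100) * d := by
      intro v hv
      have hvZ := hAZ j hv
      have h3 := hnotZ (r0 g - (j + 2)) (by omega) v (by
        rw [show r0 g - (j + 2) + 1 = r0 g - (j + 1) by omega]
        exact hvZ)
      have h4 : nb G v \ A j ⊆ (nb G v ∩ (A (j + 1) \ A j)) ∪ (nb G v \ Z (r0 g - (j + 2))) := by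
        intro w hw
        rw [mem_sdiff] at hw
        by_cases hwZ : w ∈ Z (r0 g - (j + 2))
        · refine mem_union_left _ (mem_inter.2 ⟨hw.1, mem_sdiff.2 ⟨?_, hw.2⟩⟩)
          rw [hAs j]
          refine mem_union_right _ (mem_filter.2 ⟨mem_univ _, hwZ, v, hv, ?_⟩)
          exact mem_nb'.1 hw.1
        · exact mem_union_right _ (mem_sdiff.2 ⟨hw.1, hwZ⟩)
      have h5 : ((nb G v \ A j).card : ℝ) ≤ (nb G v ∩ (A (j + 1) \ A j)).card +
          (nb G v \ Z (r0 g - (j + 2))).card := by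
        exact_mod_cast (card_le_card h4).trans (card_union_le _ _)
      linarith
    have h6 : ∑ v ∈ A j, ((nb G v \ A j).card : ℝ) ≤
        ee G (A j) (A (j + 1) \ A j) + (A j).card * (2 * (g / 100) * d) := by
      unfold ee
      refine (Finset.sum_le_sum h2).trans (le_of_eq ?_)
      rw [Finset.sum_add_distrib, Finset.sum_const, nsmul_eq_mul]
    have h7 := ee_le_mul' G (A j) (A (j + 1) \ A j) d (fun v _ => by
      exact_mod_cast (card_le_card inter_subset_left).trans (hBG.deg v))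
    have h8 : (A j) ⊆ A (j + 1) := by rw [hAs j]; exact subset_union_left
    have h9 : ((A (j + 1) \ A j).card : ℝ) = (A (j + 1)).card - (A j).card := by
      rw [card_sdiff_of_subset h8, Nat.cast_sub (card_le_card h8)]
    have h10 : (d : ℝ) * ((1 + g / 2) * (A j).card) ≤ d * (A (j + 1)).card := by
      rw [h9] at h7
      have h11 : (0 : ℝ) ≤ g * d * (A j).card := by positivity
      have h12 : g * d * (A j).card ≤ ((A (j + 1)).card - (A j).card) * d +
          (A j).card * (2 * (g / 100) * d) := h1.trans (h6.trans (by linarith))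
      have h13 : (A j).card * (2 * (g / 100) * d) = (1 / 50) * (g * d * (A j).card) := by ring
      have h14 : (d : ℝ) * ((1 + g / 2) * (A j).card) =
        d * (A j).card + (1 / 2) * (g * d * (A j).card) := by ring
      rw [h14]
      rw [h13] at h12
      nlinarith
    exact le_of_mul_le_mul_left h10 hd'
  have hex : ∃ j, j + 1 ≤ r0 g ∧ (1 + g) * d < ((A j).card : ℝ) := by
    by_contra hno
    push Not at hno
    have hpow : ∀ j, j + 1 ≤ r0 g → (1 + g / 2) ^ j * ((1 - 3 * (g / 100)) * d) ≤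
        ((A j).card : ℝ) := by
      intro j
      induction j with
      | zero => intro _; rw [pow_zero, one_mul]; exact hcard0
      | succ j ih =>
        intro hj
        have i1 := ih (by omega)
        have i2 := hgrow j (by omega) (hno j (by omega))
        rw [pow_succ]
        have i3 : (0 : ℝ) ≤ 1 + g / 2 := by positivity
        have i4 := mul_le_mul_of_nonneg_left i1 i3
        calc (1 + g / 2) ^ j * (1 + g / 2) * ((1 - 3 * (g / 100)) * d) =
              (1 + g / 2) * ((1 + g / 2) ^ j * ((1 - 3 * (g / 100)) * d)) := by ring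
          _ ≤ (1 + g / 2) * (A j).card := i4
          _ ≤ _ := i2
    have i1 := hpow (r0 g - 1) (by omega)
    have i2 := hno (r0 g - 1) (by omega)
    have i3 : 1 + ((r0 g - 1 : ℕ) : ℝ) * (g / 2) ≤ (1 + g / 2) ^ (r0 g - 1) :=
      one_add_mul_le_pow (by linarith) _
    have i4 : (5 : ℝ) ≤ ((r0 g - 1 : ℕ) : ℝ) * (g / 2) := by
      have i5 : ((r0 g - 3 : ℕ) : ℝ) ≤ ((r0 g - 1 : ℕ) : ℝ) := by
        exact_mod_cast (by omega : r0 g - 3 ≤ r0 g - 1)
      have i6 : 10 / g * (g / 2) = 5 := by field_simp; norm_num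
      have i7 := mul_le_mul_of_nonneg_right (hr0g.trans i5) (show 0 ≤ g / 2 by positivity)
      linarith
    have i8 : (6 : ℝ) ≤ (1 + g / 2) ^ (r0 g - 1) := by linarith
    have i9 : (0 : ℝ) ≤ (1 - 3 * (g / 100)) * d := mul_nonneg (by linarith) hd'.le
    have i10 := mul_le_mul_of_nonneg_right i8 i9
    have i11 : (6 : ℝ) * ((1 - 3 * (g / 100)) * d) ≤ (1 + g) * d := i10.trans (i1.trans i2)
    have i12 : (0 : ℝ) < (6 * (1 - 3 * (g / 100)) - (1 + g)) * d :=
      mul_pos (by linarith) hd'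
    linarith
  obtain ⟨j, hj, hjA⟩ := hex
  have hA0' : A j ⊆ Z 0 := (hAZ j).trans (hZanti (Nat.zero_le _))
  have hlow2 : ∀ v ∈ A j, (1 - 3 * (g / 100)) * d / N ≤ ((nb G v ∩ (C ∩ C' ∩ Vg)).card : ℝ) := by
    intro v hv
    have hv' := mem_inter.1 (hA0' hv)
    have h1 := hY2 v hv'.1
    have h2 := hY2' v hv'.2
    have h3 := hlow v
    have h4 : nb G v ∩ Vg ⊆ (nb G v ∩ (C ∩ C' ∩ Vg)) ∪ ((nb G v ∩ (Vg \ C)) ∪
        (nb G v ∩ (Vg \ C'))) := by
      intro w hw
      rw [mem_inter] at hw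
      by_cases hc : w ∈ C
      · by_cases hc' : w ∈ C'
        · exact mem_union_left _ (mem_inter.2 ⟨hw.1, mem_inter.2 ⟨mem_inter.2 ⟨hc, hc'⟩, hw.2⟩⟩)
        · exact mem_union_right _ (mem_union_right _ (mem_inter.2 ⟨hw.1, mem_sdiff.2
            ⟨hw.2, hc'⟩⟩))
      · exact mem_union_right _ (mem_union_left _ (mem_inter.2 ⟨hw.1, mem_sdiff.2 ⟨hw.2, hc⟩⟩))
    have h5 : ((nb G v ∩ Vg).card : ℝ) ≤ (nb G v ∩ (C ∩ C' ∩ Vg)).card +
        ((nb G v ∩ (Vg \ C)).card + (nb G v ∩ (Vg \ C')).card) := by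
      exact_mod_cast (card_le_card h4).trans ((card_union_le _ _).trans
        (Nat.add_le_add_left (card_union_le _ _) _))
    have h6 : (1 - 3 * (g / 100)) * d / N = (1 - g / 100) * d / N - g / 100 * d / N -
        g / 100 * d / N := by ring
    rw [h6]
    linarith
  have h1 := markov_ee G (A j) (C ∩ C' ∩ Vg) ((1 - 3 * (g / 100)) * d / N) (A j) (Subset.refl _)
    hlow2
  have h2 := ee_le_mul' G (A j) (C ∩ C' ∩ Vg) d (fun v _ => by
    exact_mod_cast (card_le_card inter_subset_left).trans (hBG.deg v))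
  have h3 : ((A j).card : ℝ) * (1 - 3 * (g / 100)) ≤ N * (C ∩ C' ∩ Vg).card := by
    have h4 : (d / N : ℝ) * (((A j).card : ℝ) * (1 - 3 * (g / 100))) ≤
        (d / N) * (N * (C ∩ C' ∩ Vg).card) := by
      calc (d / N : ℝ) * (((A j).card : ℝ) * (1 - 3 * (g / 100))) =
            (A j).card * ((1 - 3 * (g / 100)) * d / N) := by ring
        _ ≤ (C ∩ C' ∩ Vg).card * d := h1.trans h2
        _ = _ := by field_simp
    exact le_of_mul_le_mul_left h4 (by positivity)
  have h5 : (1 + g) * d * (1 - 3 * (g / 100)) ≤ (A j).card * (1 - 3 * (g / 100)) :=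
    mul_le_mul_of_nonneg_right hjA.le (by linarith)
  have h6 : (1 + g / 2) * d ≤ (1 + g) * d * (1 - 3 * (g / 100)) := by
    have h7 : 0 ≤ ((1 + g) * (1 - 3 * (g / 100)) - (1 + g / 2)) := by nlinarith
    nlinarith [mul_nonneg h7 hd'.le]
  exact h6.trans (h5.trans h3)

end GROW

universe u

/-- Block GROW. -/
theorem stmt_GROW : Stmt_GROW.{u} := GROW.stmt_GROW

end Pool.Agent.Work.MP_db9399_lc.helper85
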