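import Pool.Agent.Work.MP_db9399_lc.Interface

/-!
# MP_db9399, THEOREM LC: block FIND (helper85; a copy of helper60's FIND of the theorem BIG, which
was adapted from helper26's FIND of the theorem SC)
-/

set_option autoImplicit false

namespace Pool.Agent.Work.MP_db9399_lc.helper85

namespace FIND

open Finset Classical
open Pool.Agent.Work.MP_db9399_all (nb)
open Pool.Agent.Work.MP_db9399_dn (NB IsMat Tot)
open Pool.Agent.Work.MP_db9399_mad (EG)
open Pool.Agent.Work.MP_db9399_bg (HPre)
open _root_.MP_db9399_co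

universe u

section aux
variable {V : Type u} [Fintype V]

lemma mem_nb (G : SimpleGraph V) (v w : V) : w ∈ nb G v ↔ G.Adj v w := by
  unfold nb; simp

lemma card_nb (G : SimpleGraph V) [DecidableRel G.Adj] (v : V) : (nb G v).card = G.degree v := by
  rw [← SimpleGraph.card_neighborFinset_eq_degree]
  congr 1
  ext w
  rw [mem_nb]
  simp

lemma sum_nb_sdiff (G : SimpleGraph V) [DecidableRel G.Adj] (A S : Finset V) :
    (∑ a ∈ A, ((nb G a \ S).card : ℝ)) = ((G.interedges A (univ \ S)).card : ℝ) := by
  have h : (G.interedges A (univ \ S)).card = ∑ a ∈ A, (nb G a \ S).card := by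
    rw [SimpleGraph.interedges_def, card_filter, sum_product]
    refine sum_congr rfl fun a _ => ?_
    rw [← card_filter]
    congr 1
    ext w
    simp [mem_nb, and_comm]
  rw [h]
  push_cast
  rfl

end aux

/-- Block FIND. -/
theorem stmt_FIND : Stmt_FIND.{u} := by
  intro hNRM hEMBB g hg
  set g1 : ℝ := min g (1 / 10) with hg1
  have h0 : 0 < g1 := lt_min hg (by norm_num)
  have h1 : g1 ≤ 1 / 10 := min_le_right _ _
  have h2 : g1 ≤ g := min_le_left _ _
  obtain ⟨g', hg', hg'1, hE⟩ := hEMBB g1 h0 h1
  obtain ⟨ε0, dN, hε0, hN⟩ := hNRM g' hg' (hg'1.trans h1)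
  obtain ⟨dE, hE⟩ := hE ε0 hε0
  refine ⟨max dN dE, ?_⟩
  intro V _ G _ k hmax hbip hnsc hk H hH c₀ t₀ h₀ hcols
  set d : ℕ := G.maxDegree with hd
  have hdN : dN ≤ d := (le_max_left _ _).trans hmax
  have hdE : dE ≤ d := (le_max_right _ _).trans hmax
  have hd0 : (0 : ℝ) ≤ d := Nat.cast_nonneg d
  have hdeg : ∀ v, (nb G v).card ≤ d := by
    intro v
    rw [card_nb]
    exact G.degree_le_maxDegree v
  -- the embedding
  have hcardV : d ≤ Fintype.card V := by
    rcases isEmpty_or_nonempty V with hV | hV
    · rw [hd, SimpleGraph.maxDegree_of_isEmpty]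
      exact Nat.zero_le _
    · exact (SimpleGraph.maxDegree_lt_card_verts G).le
  obtain ⟨W, _, K, R, hR, hBG⟩ := hE G d hdE hcardV hdeg
    (by
      intro S T hST hT hc
      rw [sum_nb_sdiff]
      have hT0 : (0 : ℝ) ≤ T.card := Nat.cast_nonneg _
      have a1 : (S.card : ℝ) ≤ (1 + g) * T.card :=
        hc.trans (mul_le_mul_of_nonneg_right (by linarith) hT0)
      refine le_trans ?_ (hbip S T hST ?_ a1)
      · apply mul_le_mul_of_nonneg_right _ hT0
        exact mul_le_mul_of_nonneg_right h2 hd0
      · intro t ht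
        have a3 := hT t ht
        rw [card_nb] at a3
        refine le_trans ?_ a3
        apply mul_le_mul_of_nonneg_right _ hd0
        linarith)
    (by
      intro C hT hc
      rw [sum_nb_sdiff]
      have hT0 : (0 : ℝ) ≤ C.card := Nat.cast_nonneg _
      have a1 : (C.card : ℝ) ≤ (1 + g) * d :=
        hc.trans (mul_le_mul_of_nonneg_right (by linarith) hd0)
      refine le_trans ?_ (hnsc C ?_ a1)
      · apply mul_le_mul_of_nonneg_right _ hT0
        exact mul_le_mul_of_nonneg_right h2 hd0
      · intro t ht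
        have a3 := hT t ht
        rw [card_nb] at a3
        refine le_trans ?_ a3
        apply mul_le_mul_of_nonneg_right _ hd0
        linarith)
  -- the precolouring
  obtain ⟨hM, hdist⟩ := hH
  have hF2 : ∀ u ∈ H.verts, ∀ v ∈ H.verts, G.Adj u v → H.Adj u v := by
    intro u hu v hv huv
    by_contra hn
    have h1 := hdist u hu v hv huv.ne hn
    have h3 : G.edist u v ≤ ((SimpleGraph.Walk.cons huv SimpleGraph.Walk.nil).length : ℕ∞) :=
      SimpleGraph.edist_le _
    simp only [SimpleGraph.Walk.length_cons, SimpleGraph.Walk.length_nil] at h3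
    have h4 := h1.trans h3
    norm_num at h4
  have hF3 : ∀ u ∈ H.verts, ∀ v ∈ H.verts, ∀ x, u ≠ v → G.Adj x u → G.Adj x v → H.Adj u v := by
    intro u hu v hv x huv hxu hxv
    by_contra hn
    have h1 := hdist u hu v hv huv hn
    have h3 : G.edist u v ≤ ((SimpleGraph.Walk.cons hxu.symm
        (SimpleGraph.Walk.cons hxv SimpleGraph.Walk.nil)).length : ℕ∞) :=
      SimpleGraph.edist_le _
    simp only [SimpleGraph.Walk.length_cons, SimpleGraph.Walk.length_nil] at h3
    have h4 := h1.trans h3
    norm_num at h4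
  have hF4 : ∀ u v v', H.Adj u v → H.Adj u v' → v = v' := by
    intro u v v' h1 h2
    exact (hM h1.fst_mem).unique h1 h2
  have hk0 : 0 < k := lt_of_lt_of_le (Nat.succ_pos _) hk
  set UH : Finset (V ⊕ W) := univ.filter (fun x => ∃ v ∈ H.verts, x = Sum.inl v) with hUH
  have hUmem : ∀ v : V, Sum.inl v ∈ UH ↔ v ∈ H.verts := by
    intro v
    rw [hUH, mem_filter]
    constructor
    · rintro ⟨_, a, ha, hva⟩
      rw [Sum.inl.inj hva]
      exact ha
    · intro hv
      exact ⟨mem_univ _, v, hv, rfl⟩
  have hUr : ∀ w : W, Sum.inr w ∉ UH := by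
    intro w hw
    rw [hUH, mem_filter] at hw
    obtain ⟨_, a, _, h⟩ := hw
    cases h
  set tt : V → Fin k := fun a => if h : ∃ b, H.Adj a b then t₀ s(a, h.choose) else ⟨0, hk0⟩ with htt
  have httE : ∀ a b, H.Adj a b → tt a = t₀ s(a, b) := by
    intro a b hab
    have hex : ∃ b, H.Adj a b := ⟨b, hab⟩
    have e1 : tt a = t₀ s(a, hex.choose) := by
      rw [htt]
      exact dif_pos hex
    rw [e1, hF4 a b hex.choose hab hex.choose_spec]
  set c0 : V ⊕ W → Fin k := Sum.elim c₀ (fun _ => ⟨0, hk0⟩) with hc0
  set tu : V ⊕ W → Fin k := Sum.elim tt (fun _ => ⟨0, hk0⟩) with htu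
  set EH : SimpleGraph (V ⊕ W) := EG H.spanningCoe ⊥ (fun _ _ => False) with hEH
  have hEHl : ∀ a b : V, EH.Adj (Sum.inl a) (Sum.inl b) ↔ H.Adj a b := by
    intro a b
    rw [hEH]
    exact Iff.rfl
  have hEHr : ∀ (w : W) (x : V ⊕ W), ¬ EH.Adj (Sum.inr w) x := by
    intro w x h
    rw [hEH] at h
    rcases x with a | b
    · exact h
    · exact h
  have hEHr' : ∀ (w : W) (x : V ⊕ W), ¬ EH.Adj x (Sum.inr w) := fun w x h => hEHr w x h.symm
  set CH : Finset (Fin k) := univ.filter (fun a => a ∈ c₀ '' H.verts ∪ t₀ '' H.edgeSet) with hCH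
  have hCHc : CH.card = (c₀ '' H.verts ∪ t₀ '' H.edgeSet).ncard := by
    rw [← Set.ncard_coe_finset]
    congr 1
    ext a
    rw [hCH]
    simp
  have hpart : ∀ a ∈ H.verts, ∃ b, H.Adj a b := fun a ha => (hM ha).exists
  have hPre : HPre (EG G K R) UH c0 EH tu := by
    refine ⟨?_, ?_, ?_, ?_, ?_, ?_, ?_, ?_, ?_⟩
    · intro x y hxy
      rcases x with a | a
      · rcases y with b | b
        · have : H.Adj a b := (hEHl a b).1 hxy
          exact this.adj_sub
        · exact absurd hxy (hEHr' _ _)
      · exact absurd hxy (hEHr _ _)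
    · intro x
      rw [card_le_one]
      intro y hy z hz
      rw [mem_nb] at hy hz
      rcases x with a | a
      · rcases y with b | b
        · rcases z with c | c
          · rw [hF4 a b c ((hEHl a b).1 hy) ((hEHl a c).1 hz)]
          · exact absurd hz (hEHr' _ _)
        · exact absurd hy (hEHr' _ _)
      · exact absurd hy (hEHr _ _)
    · intro x y hxy
      rcases x with a | a
      · rcases y with b | b
        · exact (hUmem a).2 ((hEHl a b).1 hxy).fst_mem
        · exact absurd hxy (hEHr' _ _)
      · exact absurd hxy (hEHr _ _)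
    · intro x hx
      rcases x with a | a
      · obtain ⟨b, hb⟩ := hpart a ((hUmem a).1 hx)
        exact ⟨Sum.inl b, (hEHl a b).2 hb⟩
      · exact absurd hx (hUr _)
    · intro x hx y hy hxy
      rcases x with a | a
      · rcases y with b | b
        · exact (hEHl a b).2 (hF2 a ((hUmem a).1 hx) b ((hUmem b).1 hy) hxy)
        · exact absurd hy (hUr _)
      · exact absurd hx (hUr _)
    · intro v x hx y hy hvx hvy
      rcases x with a | a
      · rcases y with b | b
        · by_cases hab : a = b
          · left; rw [hab]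
          · rcases v with v | w
            · right
              exact (hEHl a b).2 (hF3 a ((hUmem a).1 hx) b ((hUmem b).1 hy) v hab hvx hvy)
            · exact absurd (hR w a b hvx hvy) hab
        · exact absurd hy (hUr _)
      · exact absurd hx (hUr _)
    · intro x y hxy
      rcases x with a | a
      · rcases y with b | b
        · have h : H.Adj a b := (hEHl a b).1 hxy
          exact h₀.vertex a b (by simpa using h)
        · exact absurd hxy (hEHr' _ _)
      · exact absurd hxy (hEHr _ _)
    · intro x hx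
      rcases x with a | a
      · obtain ⟨b, hb⟩ := hpart a ((hUmem a).1 hx)
        have e1 := httE a b hb
        have e2 := h₀.incidence a b (by simpa using hb)
        intro h
        apply e2
        rw [← e1]
        exact h
      · exact absurd hx (hUr _)
    · intro x y hxy
      rcases x with a | a
      · rcases y with b | b
        · have h : H.Adj a b := (hEHl a b).1 hxy
          have e1 := httE a b h
          have e2 := httE b a h.symm
          rw [Sym2.eq_swap] at e2
          exact e1.trans e2.symm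
        · exact absurd hxy (hEHr' _ _)
      · exact absurd hxy (hEHr _ _)
  obtain ⟨c', t', ⟨g1', g2', g3', g4'⟩, g5', g6'⟩ := hN (EG G K R) d k UH c0 EH tu CH hdN hk hBG
    hPre
    (by
      rw [hCHc]
      refine hcols.trans ?_
      apply mul_le_mul_of_nonneg_right _ hd0
      linarith)
    (by
      intro x hx
      rcases x with a | a
      · have ha := (hUmem a).1 hx
        obtain ⟨b, hb⟩ := hpart a ha
        constructor
        · rw [hCH, mem_filter]
          exact ⟨mem_univ _, Or.inl ⟨a, ha, rfl⟩⟩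
        · rw [hCH, mem_filter]
          refine ⟨mem_univ _, Or.inr ⟨s(a, b), ?_, (httE a b hb).symm⟩⟩
          simpa using hb
      · exact absurd hx (hUr _))
  refine ⟨fun v => c' (Sum.inl v),
    Sym2.lift ⟨fun a b => t' (Sum.inl a) (Sum.inl b), fun a b => g2' _ _⟩, ⟨?_, ?_, ?_⟩, ?_, ?_⟩
  · intro u v huv
    exact g1' (Sum.inl u) (Sum.inl v) huv
  · intro u v w huv huw hvw heq
    apply hvw
    have hv1 : (Sum.inl v : V ⊕ W) ∈ (nb (EG G K R) (Sum.inl u) : Set (V ⊕ W)) := by
      rw [Finset.mem_coe, mem_nb]; exact huv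
    have hw1 : (Sum.inl w : V ⊕ W) ∈ (nb (EG G K R) (Sum.inl u) : Set (V ⊕ W)) := by
      rw [Finset.mem_coe, mem_nb]; exact huw
    exact Sum.inl.inj (g3' (Sum.inl u) hv1 hw1 heq)
  · intro u v huv
    exact g4' (Sum.inl u) (Sum.inl v) huv
  · intro v hv
    exact g5' (Sum.inl v) ((hUmem v).2 hv)
  · intro e he
    induction e using Sym2.ind with
    | _ a b =>
      have hab : H.Adj a b := by simpa using he
      have e1 := g6' (Sum.inl a) (Sum.inl b) ((hEHl a b).2 hab)
      exact e1.trans (httE a b hab)

end FIND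

universe u

/-- Block FIND. -/
theorem stmt_FIND : Stmt_FIND.{u} := FIND.stmt_FIND

end Pool.Agent.Work.MP_db9399_lc.helper85
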